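import Pool.Agent.Helper44_KK.RPL

/-! Row GRJ of squad KK (MP_747bc0_co): greedy joining. -/

set_option autoImplicit false

namespace Pool.Agent.KK.H44

variable {V : Type} [Fintype V] [DecidableEq V]

/-- Number of functions `Fin m → V` which meet `Z`. -/
theorem meet_card (m : ℕ) (Z : Finset V) :
    ({w : Fin m → V | ∃ i, w i ∈ Z}.ncard : ℝ) * Fintype.card V ≤
      m * Z.card * (Fintype.card V : ℝ) ^ m := by
  classical
  have h1 : {w : Fin m → V | ∃ i, w i ∈ Z} ⊆
      ((Finset.univ : Finset (Fin m)).biUnion fun i =>
        Fintype.piFinset (fun j => if j = i then Z else Finset.univ) : Finset (Fin m → V)) := by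
    intro w hw
    obtain ⟨i, hi⟩ := hw
    simp only [Finset.coe_biUnion, Set.mem_iUnion, Finset.mem_coe, Fintype.mem_piFinset]
    refine ⟨i, Finset.mem_univ _, fun j => ?_⟩
    by_cases h : j = i
    · subst h; simpa using hi
    · simp [h]
  have h2 := Set.ncard_le_ncard h1 (Finset.finite_toSet _)
  rw [Set.ncard_coe_finset] at h2
  have h3 : ((Finset.univ : Finset (Fin m)).biUnion fun i =>
        Fintype.piFinset (fun j => if j = i then Z else (Finset.univ : Finset V))).card
        * Fintype.card V ≤ m * Z.card * Fintype.card V ^ m := by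
    calc _ ≤ (∑ i : Fin m, (Fintype.piFinset
          (fun j => if j = i then Z else (Finset.univ : Finset V))).card) * Fintype.card V :=
          Nat.mul_le_mul_right _ Finset.card_biUnion_le
      _ = ∑ i : Fin m, (Fintype.piFinset
          (fun j => if j = i then Z else (Finset.univ : Finset V))).card * Fintype.card V := by
          rw [Finset.sum_mul]
      _ = ∑ i : Fin m, Z.card * Fintype.card V ^ m := by
          apply Finset.sum_congr rfl
          intro i _
          rw [Fintype.card_piFinset]
          have hm : m = (m - 1) + 1 := by have := i.2; omega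
          rw [← Finset.mul_prod_erase Finset.univ _ (Finset.mem_univ i)]
          simp only [if_true]
          have h5 : ∏ j ∈ Finset.univ.erase i, (if j = i then Z else (Finset.univ : Finset V)).card
              = Fintype.card V ^ (m - 1) := by
            rw [Finset.prod_congr rfl (g := fun _ => Fintype.card V)]
            · rw [Finset.prod_const, Finset.card_erase_of_mem (Finset.mem_univ i)]
              simp
            · intro j hj
              rw [if_neg (Finset.ne_of_mem_erase hj), Finset.card_univ]
          rw [h5, mul_assoc, ← pow_succ, ← hm]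
      _ = _ := by simp [mul_assoc]
  have h4 : ({w : Fin m → V | ∃ i, w i ∈ Z}.ncard) * Fintype.card V ≤
      m * Z.card * Fintype.card V ^ m := (Nat.mul_le_mul_right _ h2).trans h3
  exact_mod_cast h4

/-- One connector avoiding `Z`. -/
theorem connect {H : Finset (Finset V)} {k m : ℕ} {c : ℝ} {a b : List V} (Z : Finset V)
    (hc : 0 < c) (h : c * (Fintype.card V : ℝ) ^ m ≤ con H k m a b)
    (hZ : (m : ℝ) * Z.card < c * Fintype.card V) :
    ∃ w : List V, w.length = m ∧ (∀ v ∈ w, v ∉ Z) ∧ Path H k (a ++ w ++ b) := by
  have hn : (0 : ℝ) < Fintype.card V := by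
    by_contra hcon
    have h0 : (Fintype.card V : ℝ) = 0 := le_antisymm (not_lt.1 hcon) (Nat.cast_nonneg _)
    rw [h0, mul_zero] at hZ
    have : (0 : ℝ) ≤ (m : ℝ) * Z.card := by positivity
    linarith
  by_contra hcon
  push Not at hcon
  have hsub : {w : Fin m → V | Path H k (a ++ List.ofFn w ++ b)} ⊆
      {w : Fin m → V | ∃ i, w i ∈ Z} := by
    intro w hw
    by_contra hw2
    simp only [Set.mem_setOf_eq, not_exists] at hw2
    refine hcon (List.ofFn w) (by simp) ?_ hw
    intro v hv
    rw [List.mem_ofFn] at hv
    obtain ⟨i, rfl⟩ := hv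
    exact hw2 i
  have h1 : (con H k m a b : ℝ) ≤ ({w : Fin m → V | ∃ i, w i ∈ Z}.ncard : ℝ) := by
    exact_mod_cast Set.ncard_le_ncard hsub (Set.toFinite _)
  have h2 := meet_card m Z
  have h3 : c * (Fintype.card V : ℝ) ^ m * Fintype.card V ≤
      m * Z.card * (Fintype.card V : ℝ) ^ m := by
    refine le_trans ?_ h2
    exact mul_le_mul_of_nonneg_right (h.trans h1) hn.le
  have h4 : (0 : ℝ) < (Fintype.card V : ℝ) ^ m := pow_pos hn m
  have h5 : (m : ℝ) * Z.card * (Fintype.card V : ℝ) ^ m <
      c * Fintype.card V * (Fintype.card V : ℝ) ^ m := mul_lt_mul_of_pos_right hZ h4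
  linarith

theorem card_toFinset_le (l : List V) : (l.toFinset.card : ℝ) ≤ l.length := by
  exact_mod_cast l.toFinset_card_le

theorem flatten_length_le (M : ℕ) : ∀ ws : List (List V), (∀ w ∈ ws, w.length ≤ M) →
    ws.flatten.length ≤ M * ws.length := by
  intro ws
  induction ws with
  | nil => intro _; simp
  | cons w ws ih =>
    intro h
    have h1 := ih (fun x hx => h x (List.mem_cons_of_mem _ hx))
    have h2 := h w (List.mem_cons_self ..)
    simp only [List.flatten_cons, List.length_append, List.length_cons]
    nlinarith

/-- Joining two segments by a connector. -/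
theorem seg_join {H : Finset (Finset V)} {k : ℕ} {T : Set (List V)} {p w q : List V}
    (hk : 2 ≤ k) (hp : Seg H k T T p) (hq : Seg H k T T q) (hn : (p ++ w ++ q).Nodup)
    (h : Tight H k (p.drop (p.length - (k - 1)) ++ w ++ q.take (k - 1))) :
    Seg H k T T (p ++ w ++ q) := by
  obtain ⟨⟨hpn, hpt⟩, hpl, hp1, hp2⟩ := hp
  obtain ⟨⟨hqn, hqt⟩, hql, hq1, hq2⟩ := hq
  have hk1 : 1 ≤ k := by omega
  refine ⟨⟨hn, ?_⟩, ?_, ?_, ?_⟩
  · -- tightness
    have h1 := tight_glue (u := p.take (p.length - (k - 1)))
      (a := p.drop (p.length - (k - 1))) (v := w ++ q.take (k - 1)) hk1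
      (by rw [List.length_drop]; omega)
      (by rw [List.take_append_drop]; exact hpt)
      (by rw [← List.append_assoc]; exact h)
    rw [List.take_append_drop] at h1
    have h2 := tight_glue (u := p ++ w) (a := q.take (k - 1)) (v := q.drop (k - 1)) hk1
      (by rw [List.length_take]; omega)
      (by rw [List.append_assoc]; exact h1)
      (by rw [List.take_append_drop]; exact hqt)
    rwa [List.append_assoc, List.take_append_drop] at h2
  · simp only [List.length_append]; omega
  · rw [List.append_assoc, List.take_append_of_le_length hpl]; exact hp1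
  · rw [drop_last_append _ _ hql]; exact hq2

theorem grj_aux (k M : ℕ) (c : ℝ) (H : Finset (Finset V)) (T : Set (List V)) (hk : 2 ≤ k)
    (hc : 0 < c) (hJ : Joins H k T c M) :
    ∀ (ps : List (List V)) (W : Finset V), ps ≠ [] → (∀ p ∈ ps, Seg H k T T p) →
      ps.flatten.Nodup →
      (M : ℝ) * (W.card + ps.flatten.length + M * ps.length) < c * Fintype.card V →
      ∃ ws : List (List V), ws.length + 1 = ps.length ∧ (∀ w ∈ ws, w.length ≤ M) ∧
        (∀ w ∈ ws, ∀ v ∈ w, v ∉ W) ∧ (ps.flatten ++ ws.flatten).Nodup ∧
        (weave ps ws).Perm (ps.flatten ++ ws.flatten) ∧ Seg H k T T (weave ps ws) := by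
  intro ps
  induction ps with
  | nil => intro W h; exact absurd rfl h
  | cons p ps ih =>
    intro W _ hseg hnd hM
    cases ps with
    | nil =>
      refine ⟨[], by simp, by simp, by simp, by simpa using hnd, by simp [weave], ?_⟩
      simp only [weave]
      exact hseg p (List.mem_cons_self ..)
    | cons p2 ps =>
      have hnd' : p.Nodup ∧ (p2 :: ps).flatten.Nodup ∧ p.Disjoint (p2 :: ps).flatten := by
        rw [List.flatten_cons] at hnd
        exact List.nodup_append'.1 hnd
      obtain ⟨hn1, hn2, hn3⟩ := hnd'
      have hlen : ((p :: p2 :: ps).flatten.length : ℝ) = p.length + (p2 :: ps).flatten.length := by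
        rw [List.flatten_cons, List.length_append]; push_cast; ring
      have hcw : ((W ∪ p.toFinset).card : ℝ) ≤ W.card + p.length := by
        have h1 : ((W ∪ p.toFinset).card : ℝ) ≤ W.card + p.toFinset.card := by
          exact_mod_cast Finset.card_union_le _ _
        have h2 := card_toFinset_le p
        linarith
      have hM0 : (0 : ℝ) ≤ M := Nat.cast_nonneg _
      obtain ⟨ws, hw1, hw2, hw3, hw4, hw5, hw6⟩ := ih (W ∪ p.toFinset) (by simp)
        (fun x hx => hseg x (List.mem_cons_of_mem _ hx)) hn2 (by
          refine lt_of_le_of_lt ?_ hM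
          apply mul_le_mul_of_nonneg_left _ hM0
          rw [hlen]
          have h3 : (((p2 :: ps).length : ℕ) : ℝ) ≤ ((p :: p2 :: ps).length : ℕ) := by
            exact_mod_cast Nat.le_succ _
          have h4 := mul_le_mul_of_nonneg_left h3 hM0
          linarith)
      set Q := weave (p2 :: ps) ws with hQ
      have hp := hseg p (List.mem_cons_self ..)
      -- disjointness of `p` and `Q`
      have hpw : p.Disjoint ws.flatten := by
        intro v hv hv2
        obtain ⟨w, hw, hvw⟩ := List.mem_flatten.1 hv2
        exact hw3 w hw v hvw (Finset.mem_union_right _ (List.mem_toFinset.2 hv))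
      have hpQ : p.Disjoint Q := by
        intro v hv hv2
        rw [hw5.mem_iff, List.mem_append] at hv2
        rcases hv2 with h | h
        · exact hn3 hv h
        · exact hpw hv h
      have hab : (p.drop (p.length - (k - 1))).Disjoint (Q.take (k - 1)) :=
        fun v hv hv2 => hpQ (List.mem_of_mem_drop hv) (List.mem_of_mem_take hv2)
      obtain ⟨m, hm, hcon⟩ := hJ _ hp.2.2.2 _ hw6.2.2.1 hab
      have hQlen : (Q.length : ℝ) ≤ (p2 :: ps).flatten.length + M * ws.length := by
        rw [hw5.length_eq, List.length_append]
        have := flatten_length_le M ws hw2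
        exact_mod_cast Nat.add_le_add_left this _
      obtain ⟨w, hwl, hwZ, hwp⟩ := connect (W ∪ p.toFinset ∪ Q.toFinset) hc hcon (by
        refine lt_of_le_of_lt ?_ hM
        have h1 : ((W ∪ p.toFinset ∪ Q.toFinset).card : ℝ) ≤
            (W ∪ p.toFinset).card + Q.toFinset.card := by
          exact_mod_cast Finset.card_union_le _ _
        have h2 := card_toFinset_le Q
        have h3 : (m : ℝ) ≤ M := by exact_mod_cast hm
        have h4 : (((p :: p2 :: ps).length : ℕ) : ℝ) = ws.length + 1 + 1 := by
          rw [List.length_cons, ← hw1]; push_cast; ring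
        have h5 : ((W ∪ p.toFinset ∪ Q.toFinset).card : ℝ) ≤
            W.card + (p :: p2 :: ps).flatten.length + M * (p :: p2 :: ps).length := by
          rw [hlen, h4]; nlinarith
        exact mul_le_mul h3 h5 (Nat.cast_nonneg _) hM0)
      have hwW : ∀ v ∈ w, v ∉ W ∧ v ∉ p ∧ v ∉ Q := by
        intro v hv
        have h := hwZ v hv
        simp only [Finset.mem_union, List.mem_toFinset, not_or] at h
        exact ⟨h.1.1, h.1.2, h.2⟩
      have hwn : w.Nodup := by
        have h := hwp.1
        exact ((List.nodup_append'.1 (List.nodup_append'.1 h).1).2.1)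
      have hall : (p ++ w ++ Q).Nodup := by
        rw [List.nodup_append', List.nodup_append']
        refine ⟨⟨hn1, hwn, fun v hv hv2 => (hwW v hv2).2.1 hv⟩, hw6.1.1, ?_⟩
        intro v hv hv2
        rcases List.mem_append.1 hv with h | h
        · exact hpQ h hv2
        · exact (hwW v h).2.2 hv2
      have hperm : (weave (p :: p2 :: ps) (w :: ws)).Perm
          ((p :: p2 :: ps).flatten ++ (w :: ws).flatten) := by
        simp only [weave]
        rw [List.flatten_cons (l := p), List.flatten_cons (l := w)]
        have h1 : (p ++ w ++ Q).Perm (p ++ w ++ ((p2 :: ps).flatten ++ ws.flatten)) :=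
          List.Perm.append_left _ hw5
        refine h1.trans ?_
        rw [List.append_assoc, List.append_assoc]
        apply List.Perm.append_left
        rw [← List.append_assoc, ← List.append_assoc]
        exact List.Perm.append_right _ List.perm_append_comm
      refine ⟨w :: ws, by simp only [List.length_cons] at hw1 ⊢; omega, ?_, ?_, ?_, hperm, ?_⟩
      · intro x hx
        rcases List.mem_cons.1 hx with rfl | hx
        · omega
        · exact hw2 x hx
      · intro x hx v hv
        rcases List.mem_cons.1 hx with rfl | hx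
        · exact (hwW v hv).1
        · exact fun hvW => hw3 x hx v hv (Finset.mem_union_left _ hvW)
      · rw [← hperm.nodup_iff]
        simp only [weave]
        exact hall
      · simp only [weave]
        exact seg_join hk hp hw6 hall hwp.2

theorem grj : GrjStmt := by
  intro k M c V _ _ H T hk hc _ hJ ps W h0 hseg hnd hM
  exact grj_aux k M c H T hk hc hJ ps W h0 hseg hnd hM

end Pool.Agent.KK.H44
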