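import Pool.Agent.KK.StmtsG
import Pool.Agent.Helper40_KK.MixC

/-!
# Squad KK, block G, row G_CRM: crossing with a mixed set in slot form
-/

set_option autoImplicit false

namespace Pool.Agent.KK.E.H44

open Pool.Agent.KK Pool.Agent.KK.E Pool.Agent.KK.E.H40

/-! ## Letters -/

/-- letters of the block -/
def lb (p q μ i : ℕ) : Bool :=
  decide ((q + 1 ≤ i ∧ i < p + q + 3) ∨ (p + 2 * q + 3 ≤ i ∧ i + μ < 2 * p + 2 * q + 4))

/-- the block -/
def cw (p q μ : ℕ) : List Bool :=
  List.replicate (q + 1) false ++ List.replicate (p + 2) true ++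
    List.replicate q false ++ List.replicate (p + 1 - μ) true

/-- the letters behind the block -/
def rw' (p q μ : ℕ) : List Bool :=
  (List.replicate (μ + 1) true ++ List.replicate q false ++ List.replicate p true).take (p + q + 1)

lemma cw_length {p q μ : ℕ} (h : μ ≤ p + 1) : (cw p q μ).length + μ = 2 * (p + q + 2) := by
  unfold cw; simp only [List.length_append, List.length_replicate]; omega

lemma rw'_length (p q μ : ℕ) : (rw' p q μ).length = p + q + 1 := by
  unfold rw'
  simp only [List.length_take, List.length_append, List.length_replicate]; omega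

lemma cw_getD {p q μ : ℕ} (h : μ ≤ p + 1) (i : ℕ) : (cw p q μ).getD i false = lb p q μ i := by
  unfold cw lb
  simp only [List.getD_eq_getElem?_getD, List.getElem?_append, List.length_append,
    List.length_replicate, List.getElem?_replicate]
  split_ifs <;> simp <;> omega

/-- letters of the whole word -/
def lw (p q j : ℕ) : Bool :=
  decide ((q ≤ j ∧ j < p + q) ∨ (p + 2 * q + 2 ≤ j ∧ j < 2 * p + 2 * q + 4) ∨
    (2 * p + 3 * q + 4 ≤ j ∧ j < 3 * p + 3 * q + 6) ∨ 3 * p + 4 * q + 6 ≤ j)

/-- the whole word -/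
def ww (p q μ : ℕ) : List Bool := low p q ++ cw p q μ ++ rw' p q μ

lemma ww_length {p q μ : ℕ} (h : μ ≤ p + 1) :
    (ww p q μ).length + μ = 4 * p + 4 * q + 6 := by
  unfold ww
  have h1 := cw_length (q := q) h
  have h2 := rw'_length p q μ
  have h3 := low_length p q
  simp only [List.length_append]
  omega

lemma ww_get {p q μ : ℕ} (h : μ ≤ p + 1) (j : ℕ) (hj : j + μ < 4 * p + 4 * q + 6) :
    (ww p q μ)[j]? = some (lw p q j) := by
  unfold ww cw rw' low lw
  simp only [List.getElem?_append, List.length_append, List.getElem?_take,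
    List.length_replicate, List.length_cons, List.length_nil, List.getElem?_replicate,
    List.getElem?_cons]
  split_ifs <;> first | (exfalso; omega) | (simp; done) | (simp; omega)

/-- number of the letters `X` before the position `j` -/
def pc (p q j : ℕ) : ℕ :=
  min (j - q) p + min (j - (p + 2 * q + 2)) (p + 2) + min (j - (2 * p + 3 * q + 4)) (p + 2) +
    (j - (3 * p + 4 * q + 6))

lemma min_succ (s w j : ℕ) :
    min (j + 1 - s) w = min (j - s) w + (if s ≤ j ∧ j < s + w then 1 else 0) := by
  split_ifs <;> omega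

lemma pc_succ (p q j : ℕ) : pc p q (j + 1) = pc p q j + (if lw p q j = true then 1 else 0) := by
  have h4 : j + 1 - (3 * p + 4 * q + 6) =
      (j - (3 * p + 4 * q + 6)) + (if 3 * p + 4 * q + 6 ≤ j then 1 else 0) := by
    split_ifs <;> omega
  have h5 : (if lw p q j = true then 1 else 0) = (if q ≤ j ∧ j < q + p then 1 else 0) +
      (if p + 2 * q + 2 ≤ j ∧ j < p + 2 * q + 2 + (p + 2) then 1 else 0) +
      (if 2 * p + 3 * q + 4 ≤ j ∧ j < 2 * p + 3 * q + 4 + (p + 2) then 1 else 0) +
      (if 3 * p + 4 * q + 6 ≤ j then 1 else 0) := by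
    unfold lw
    by_cases c1 : q ≤ j ∧ j < q + p
    · rw [if_pos (by rw [decide_eq_true_iff]; omega), if_pos c1, if_neg (by omega),
        if_neg (by omega), if_neg (by omega)]
    · by_cases c2 : p + 2 * q + 2 ≤ j ∧ j < p + 2 * q + 2 + (p + 2)
      · rw [if_pos (by rw [decide_eq_true_iff]; omega), if_neg c1, if_pos c2,
          if_neg (by omega), if_neg (by omega)]
      · by_cases c3 : 2 * p + 3 * q + 4 ≤ j ∧ j < 2 * p + 3 * q + 4 + (p + 2)
        · rw [if_pos (by rw [decide_eq_true_iff]; omega), if_neg c1, if_neg c2,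
            if_pos c3, if_neg (by omega)]
        · by_cases c4 : 3 * p + 4 * q + 6 ≤ j
          · rw [if_pos (by rw [decide_eq_true_iff]; omega), if_neg c1, if_neg c2,
              if_neg c3, if_pos c4]
          · rw [if_neg (by rw [decide_eq_true_iff]; omega), if_neg c1, if_neg c2,
              if_neg c3, if_neg c4]
  rw [h5]
  unfold pc
  rw [min_succ, min_succ, min_succ, h4]
  ring

lemma wt_take {p q μ : ℕ} (h : μ ≤ p + 1) (j : ℕ) (hj : j + μ ≤ 4 * p + 4 * q + 6) :
    wt ((ww p q μ).take j) = pc p q j := by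
  induction j with
  | zero => simp [wt, pc]
  | succ j ih =>
    have h1 := ih (by omega)
    have h2 := ww_get (q := q) h j (by omega)
    rw [List.take_add_one, h2]
    unfold wt at h1 ⊢
    rw [List.count_append, h1]
    rw [pc_succ]
    simp only [Option.toList_some, List.count_singleton, beq_iff_eq]

lemma wt_win {p q μ : ℕ} (h : μ ≤ p + 1) (a : ℕ)
    (ha : a + (p + q + 2) + μ ≤ 4 * p + 4 * q + 6) :
    (a < p + q + 1 → wt (((ww p q μ).drop a).take (p + q + 2)) = p) ∧
    (p + q + 2 ≤ a → wt (((ww p q μ).drop a).take (p + q + 2)) = p + 2) := by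
  have h1 := wt_take h (a + (p + q + 2)) ha
  have h2 := wt_take (q := q) h a (by omega)
  rw [List.take_add] at h1
  unfold wt at h1 h2 ⊢
  rw [List.count_append, h2] at h1
  unfold pc at h1
  constructor
  · intro h3
    omega
  · intro h3
    omega

/-! ## Fixed positions -/

variable {V : Type} [Fintype V] [DecidableEq V]

/-- positions of the elements of `M` in the block -/
structure Fy (p q L : ℕ) (M : Finset V) (o : Fin L → Option V) : Prop where
  none : ∀ i : Fin L, o i = none ↔ ¬ (p + q + 2 ≤ (i : ℕ) + M.card ∧ (i : ℕ) < p + q + 2)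
  inj : ∀ i i' v, o i = some v → o i' = some v → i = i'
  mem : ∀ v, v ∈ M ↔ ∃ i, o i = some v

omit [Fintype V] [DecidableEq V] in
lemma exists_Fy (p q L : ℕ) (M : Finset V) (hM : M.card ≤ p + 1) (hM1 : 1 ≤ M.card)
    (hL : L + M.card = 2 * (p + q + 2)) : ∃ o, Fy p q L M o := by
  obtain ⟨o', ho'⟩ := exists_Fx p q M hM
  refine ⟨fun i => o' ⟨(i : ℕ) + (p + q + 1), by have := i.2; omega⟩, ?_, ?_, ?_⟩
  · intro i
    rw [ho'.none]
    simp only
    constructor
    · intro h1 h2; exact h1 (by omega)
    · intro h1 h2; exact h1 (by omega)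
  · intro i i' v h1 h2
    have h3 := congrArg Fin.val (ho'.inj _ _ v h1 h2)
    simp only at h3
    exact Fin.ext (by omega)
  · intro v
    rw [ho'.mem]
    constructor
    · rintro ⟨j, hj⟩
      have h1 : 2 * p + 2 * q + 3 ≤ (j : ℕ) + M.card ∧ (j : ℕ) < 2 * p + 2 * q + 3 := by
        by_contra hcon
        rw [(ho'.none j).mpr hcon] at hj
        exact Option.some_ne_none _ hj.symm
      refine ⟨⟨(j : ℕ) - (p + q + 1), by omega⟩, ?_⟩
      rw [← hj]
      refine congrArg o' (Fin.ext ?_)
      simp only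
      omega
    · rintro ⟨i, hi⟩
      exact ⟨_, hi⟩

/-- the placement of the used coordinates in the block -/
def plb (p q a L : ℕ) (hL : 2 * q + a + p + 3 ≤ L) : ((Fin a ⊕ Fin q) × Bool) ⊕ Bool → Fin L
  | Sum.inl (t, c) => ⟨(if c then p + q + 3 else 1) + rk t, by
      have := rk_lt t; split_ifs <;> omega⟩
  | Sum.inr c => ⟨if c then p + q + 2 else 0, by split_ifs <;> omega⟩

lemma plb_inl {p q a L : ℕ} (hL : 2 * q + a + p + 3 ≤ L) (t : Fin a ⊕ Fin q) (c : Bool) :
    ((plb p q a L hL (Sum.inl (t, c))) : ℕ) = (if c then p + q + 3 else 1) + rk t := rfl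

lemma plb_inr {p q a L : ℕ} (hL : 2 * q + a + p + 3 ≤ L) (c : Bool) :
    ((plb p q a L hL (Sum.inr c)) : ℕ) = if c then p + q + 2 else 0 := rfl

lemma plb_injective {p q a L : ℕ} (ha : a ≤ p) (hL : 2 * q + a + p + 3 ≤ L) :
    Function.Injective (plb p q a L hL) := by
  intro x y hxy
  have h := congrArg Fin.val hxy
  rcases x with ⟨t, c⟩ | c <;> rcases y with ⟨t', c'⟩ | c'
  · rw [plb_inl, plb_inl] at h
    have h1 := rk_lt t
    have h2 := rk_lt t'
    have h3 : c = c' := by
      rcases c with _ | _ <;> rcases c' with _ | _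
      · rfl
      · simp only [if_true, if_false, Bool.false_eq_true] at h; omega
      · simp only [if_true, if_false, Bool.false_eq_true] at h; omega
      · rfl
    subst h3
    rw [rk_inj (Nat.add_left_cancel h)]
  · rw [plb_inl, plb_inr] at h
    have h1 := rk_lt t
    exfalso
    rcases c with _ | _ <;> rcases c' with _ | _ <;>
      simp only [if_true, if_false, Bool.false_eq_true] at h <;> omega
  · rw [plb_inl, plb_inr] at h
    have h1 := rk_lt t'
    exfalso
    rcases c with _ | _ <;> rcases c' with _ | _ <;>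
      simp only [if_true, if_false, Bool.false_eq_true] at h <;> omega
  · rw [plb_inr, plb_inr] at h
    rcases c with _ | _ <;> rcases c' with _ | _
    · rfl
    · simp only [if_true, if_false, Bool.false_eq_true] at h; omega
    · simp only [if_true, if_false, Bool.false_eq_true] at h; omega
    · rfl

/-- the window of the block starting at the absolute position `c` -/
def wb (p q L c : ℕ) : Finset (Fin L) :=
  Finset.univ.filter fun i : Fin L => c ≤ (i : ℕ) + (p + q + 1) ∧
    (i : ℕ) + (p + q + 1) < c + (p + q + 2)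

lemma mem_wb {p q L c : ℕ} {i : Fin L} :
    i ∈ wb p q L c ↔ c ≤ (i : ℕ) + (p + q + 1) ∧ (i : ℕ) + (p + q + 1) < c + (p + q + 2) := by
  simp [wb]

/-- **Windows containing all of `M`.** -/
theorem core_windows {H : Finset (Finset V)} {X M : Finset V} {p q L : ℕ}
    {o : Fin L → Option V} (hF : Fy p q L M o) (hM1 : 1 ≤ M.card)
    (hLM : L + M.card = 2 * (p + q + 2))
    {a : ℕ} (haM : a + M.card = p + 1) {l : Fin L → Bool}
    {f : Fin L → V} (hf : ∀ i, f i ∈ bx X l o i) (hL : 2 * q + a + p + 3 ≤ L)
    (hP : PE H M (f ∘ plb p q a L hL)) {c : ℕ} (hc1 : p + q + 1 ≤ c)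
    (hc2 : c + M.card ≤ 2 * p + 2 * q + 3) : (wb p q L c).image f ∈ H := by
  have hfix : ∀ i v, o i = some v → f i = v := by
    intro i v hi
    have h1 := hf i
    unfold bx at h1
    rw [hi] at h1
    simpa using h1
  have hMpos : ∀ v ∈ M, ∃ i : Fin L, f i = v ∧
      p + q + 2 ≤ (i : ℕ) + M.card ∧ (i : ℕ) < p + q + 2 := by
    intro v hv
    obtain ⟨i, hi⟩ := (hF.mem v).mp hv
    refine ⟨i, hfix i v hi, ?_⟩
    by_contra hcon
    rw [(hF.none i).mpr hcon] at hi
    exact Option.some_ne_none _ hi.symm
  have hfM : ∀ i : Fin L, p + q + 2 ≤ (i : ℕ) + M.card →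
      (i : ℕ) < p + q + 2 → f i ∈ M := by
    intro i h1 h2
    have h3 : o i ≠ none := fun hcon => (hF.none i).mp hcon ⟨h1, h2⟩
    obtain ⟨v, hv⟩ := Option.ne_none_iff_exists'.mp h3
    rw [hfix i v hv]
    exact (hF.mem v).mpr ⟨i, hv⟩
  have hval : ∀ (i j : Fin L), (i : ℕ) = j → f i = f j :=
    fun i j h => congrArg f (Fin.ext h)
  rcases Nat.eq_or_lt_of_le hc1 with h1 | h1
  · -- the window starting at `k - 1`
    have h2 := (hP (fun _ => false)).2
    have h3 : (wb p q L c).image f = insert ((f ∘ plb p q a L hL) (Sum.inr false))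
        (M ∪ Finset.univ.image fun i => (f ∘ plb p q a L hL) (Sum.inl (i, false))) := by
      ext v
      simp only [Finset.mem_image, Finset.mem_insert, Finset.mem_union, Finset.mem_univ, true_and,
        mem_wb, Function.comp_apply]
      constructor
      · rintro ⟨i, ⟨hi1, hi2⟩, rfl⟩
        by_cases h4 : (i : ℕ) = 0
        · exact Or.inl (hval _ _ (by rw [plb_inr]; simpa using h4))
        · by_cases h5 : (i : ℕ) + M.card < p + q + 2
          · obtain ⟨t, ht⟩ := rk_surj (a := a) (q := q) (j := (i : ℕ) - 1) (by omega)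
            refine Or.inr (Or.inr ⟨t, hval _ _ ?_⟩)
            rw [plb_inl, ht]
            simp only [Bool.false_eq_true, if_false]
            omega
          · exact Or.inr (Or.inl (hfM i (by omega) (by omega)))
      · rintro (h4 | h4 | ⟨t, h4⟩)
        · refine ⟨plb p q a L hL (Sum.inr false), ?_, h4.symm⟩
          rw [plb_inr]
          simp only [Bool.false_eq_true, if_false]
          omega
        · obtain ⟨i, hi, hi1, hi2⟩ := hMpos v h4
          exact ⟨i, by omega, hi⟩
        · refine ⟨plb p q a L hL (Sum.inl (t, false)), ?_, h4⟩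
          have h5 := rk_lt t
          rw [plb_inl]
          simp only [Bool.false_eq_true, if_false]
          omega
    rw [h3]
    exact h2
  · -- the windows starting later
    have h2 := (hP (fun t => decide (rk t + (p + q + 2) < c))).1
    have h3 : (wb p q L c).image f = insert ((f ∘ plb p q a L hL) (Sum.inr true))
        (M ∪ Finset.univ.image fun i =>
          (f ∘ plb p q a L hL) (Sum.inl (i, decide (rk i + (p + q + 2) < c)))) := by
      ext v
      simp only [Finset.mem_image, Finset.mem_insert, Finset.mem_union, Finset.mem_univ, true_and,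
        mem_wb, Function.comp_apply]
      constructor
      · rintro ⟨i, ⟨hi1, hi2⟩, rfl⟩
        by_cases h4 : (i : ℕ) = p + q + 2
        · exact Or.inl (hval _ _ (by rw [plb_inr]; simpa using h4))
        · by_cases h5 : (i : ℕ) + M.card < p + q + 2
          · obtain ⟨t, ht⟩ := rk_surj (a := a) (q := q) (j := (i : ℕ) - 1) (by omega)
            refine Or.inr (Or.inr ⟨t, hval _ _ ?_⟩)
            have h6 : ¬ (rk t + (p + q + 2) < c) := by omega
            rw [plb_inl]
            simp only [h6, decide_false, Bool.false_eq_true, if_false]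
            omega
          · by_cases h7 : (i : ℕ) < p + q + 2
            · exact Or.inr (Or.inl (hfM i (by omega) h7))
            · obtain ⟨t, ht⟩ := rk_surj (a := a) (q := q) (j := (i : ℕ) - (p + q + 3))
                (by omega)
              refine Or.inr (Or.inr ⟨t, hval _ _ ?_⟩)
              have h6 : rk t + (p + q + 2) < c := by omega
              rw [plb_inl]
              simp only [h6, decide_true, if_true]
              omega
      · rintro (h4 | h4 | ⟨t, h4⟩)
        · refine ⟨plb p q a L hL (Sum.inr true), ?_, h4.symm⟩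
          rw [plb_inr]
          simp only [if_true]
          omega
        · obtain ⟨i, hi, hi1, hi2⟩ := hMpos v h4
          exact ⟨i, by omega, hi⟩
        · refine ⟨_, ?_, h4⟩
          have h5 := rk_lt t
          rw [plb_inl]
          by_cases h6 : rk t + (p + q + 2) < c
          · simp only [h6, decide_true, if_true]
            omega
          · simp only [h6, decide_false, Bool.false_eq_true, if_false]
            omega
    rw [h3]
    exact h2

/-- **The density of the event.** -/
theorem dens_PB (h01 : StmtE01) (h02 : StmtE02) (h20 : StmtE20) {H : Finset (Finset V)}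
    {X M : Finset V} {p q L : ℕ} (hX : X.Nonempty) (hX' : (Xᶜ).Nonempty)
    {o : Fin L → Option V} (hF : Fy p q L M o) (hM1 : 1 ≤ M.card)
    (hLM : L + M.card = 2 * (p + q + 2))
    {a : ℕ} (haM : a + M.card = p + 1) (hL : 2 * q + a + p + 3 ≤ L) {d : ℝ} (hd0 : 0 ≤ d)
    (hd1 : d ≤ 1) (hd : d ≤ Mix H X M a q) :
    d ^ (2 ^ (p + q + 2)) ≤
      dens (bx X (fun i : Fin L => (cw p q M.card).getD (i : ℕ) false) o)
        (fun f => PE H M (f ∘ plb p q a L hL)) := by
  have hsd : ∀ b, (sd X b).Nonempty := by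
    intro b
    unfold sd
    split_ifs
    · exact hX
    · exact hX'
  have hlets : ∀ i, (lets X a q i).Nonempty := by
    intro i
    rcases i with i | i
    · exact hX
    · exact hX'
  set cM : (Fin a ⊕ Fin q) ⊕ Bool → Finset V :=
    Sum.elim (lets X a q) (fun t : Bool => sd X t) with hcM
  have hcMne : ∀ i, (cM i).Nonempty := by
    intro i
    rcases i with i | i
    · exact hlets i
    · exact hsd i
  have h1 := h20 V ((Fin a ⊕ Fin q) ⊕ Bool) cM
    (fun f => insert (f (Sum.inr true)) (M ∪ Finset.univ.image fun i => f (Sum.inl i)) ∈ H ∧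
      insert (f (Sum.inr false)) (M ∪ Finset.univ.image fun i => f (Sum.inl i)) ∈ H) d hcMne hd0 hd
  have hcard : Fintype.card ((Fin a ⊕ Fin q) ⊕ Bool) ≤ p + q + 2 := by
    simp only [Fintype.card_sum, Fintype.card_fin, Fintype.card_bool]
    omega
  have h2 : d ^ (2 ^ (p + q + 2)) ≤ d ^ (2 ^ Fintype.card ((Fin a ⊕ Fin q) ⊕ Bool)) :=
    pow_le_pow_of_le_one hd0 hd1 (Nat.pow_le_pow_right (by norm_num) hcard)
  refine h2.trans (h1.trans ?_)
  let ψ : ((Fin a ⊕ Fin q) × Bool) ⊕ Bool → ((Fin a ⊕ Fin q) ⊕ Bool) × Bool :=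
    Sum.elim (fun x => (Sum.inl x.1, x.2)) (fun b => (Sum.inr b, false))
  have hψ : Function.Injective ψ := by
    intro x y hxy
    rcases x with ⟨t, c⟩ | c <;> rcases y with ⟨t', c'⟩ | c' <;>
      simp only [ψ, Sum.elim_inl, Sum.elim_inr, Prod.mk.injEq, Sum.inl.injEq, Sum.inr.injEq,
        reduceCtorEq, false_and, and_true] at hxy
    · rw [hxy.1, hxy.2]
    · rw [hxy]
  have hbig : ∀ z : ((Fin a ⊕ Fin q) ⊕ Bool) × Bool,
      ((fun z : ((Fin a ⊕ Fin q) ⊕ Bool) × Bool => cM z.1) z).Nonempty := fun z => hcMne z.1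
  have h3 := (h01 V (((Fin a ⊕ Fin q) ⊕ Bool) × Bool) (fun z => cM z.1) hbig).2.1
    (fun g => ∀ s : (Fin a ⊕ Fin q) ⊕ Bool → Bool,
      insert ((fun i => g (i, s i)) (Sum.inr true))
        (M ∪ Finset.univ.image fun i => (fun i => g (i, s i)) (Sum.inl i)) ∈ H ∧
      insert ((fun i => g (i, s i)) (Sum.inr false))
        (M ∪ Finset.univ.image fun i => (fun i => g (i, s i)) (Sum.inl i)) ∈ H)
    (fun g => PE H M (g ∘ ψ)) (by
      intro g _ hg s
      exact hg (Sum.elim s (fun _ => false)))
  refine h3.trans (le_of_eq ?_)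
  rw [h02 V (((Fin a ⊕ Fin q) ⊕ Bool) × Bool) (((Fin a ⊕ Fin q) × Bool) ⊕ Bool)
    (fun z => cM z.1) ψ hbig hψ (PE H M)]
  have hbx : ∀ i, (bx X (fun i : Fin L => (cw p q M.card).getD (i : ℕ) false) o i).Nonempty := by
    intro i
    unfold bx
    rcases o i with _ | v
    · exact hsd _
    · exact ⟨v, by simp⟩
  rw [h02 V (Fin L) (((Fin a ⊕ Fin q) × Bool) ⊕ Bool) _ (plb p q a L hL) hbx
    (plb_injective (by omega) hL) (PE H M)]
  congr 1
  funext x
  simp only [Function.comp_apply]
  have hnone : o (plb p q a L hL x) = none := by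
    rw [hF.none]
    rcases x with ⟨t, c⟩ | c
    · have h5 := rk_lt t
      rw [plb_inl]
      rcases c with _ | _ <;> simp only [Bool.false_eq_true, if_true, if_false] <;> omega
    · rw [plb_inr]
      rcases c with _ | _ <;> simp only [Bool.false_eq_true, if_true, if_false] <;> omega
  unfold bx
  rw [hnone]
  show cM (ψ x).1 = sd X ((cw p q M.card).getD ((plb p q a L hL x : Fin L) : ℕ) false)
  rw [cw_getD (by omega)]
  rcases x with ⟨t, c⟩ | c
  · rw [plb_inl]
    rcases t with t | t
    · have h5 := t.2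
      have h6 : lb p q M.card ((if c then p + q + 3 else 1) +
          rk (Sum.inl t : Fin a ⊕ Fin q)) = true := by
        unfold lb
        rw [decide_eq_true_iff]
        simp only [rk, Sum.elim_inl]
        rcases c with _ | _ <;> simp only [Bool.false_eq_true, if_true, if_false] <;> omega
      rw [h6]
      rfl
    · have h5 := t.2
      have h6 : lb p q M.card ((if c then p + q + 3 else 1) +
          rk (Sum.inr t : Fin a ⊕ Fin q)) = false := by
        unfold lb
        rw [decide_eq_false_iff_not]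
        simp only [rk, Sum.elim_inr]
        rcases c with _ | _ <;> simp only [Bool.false_eq_true, if_true, if_false] <;> omega
      rw [h6]
      rfl
  · rw [plb_inr]
    rcases c with _ | _
    · have h6 : lb p q M.card (if (false : Bool) then p + q + 2 else 0) = false := by
        unfold lb
        rw [decide_eq_false_iff_not]
        simp only [Bool.false_eq_true, if_false]
        omega
      rw [h6]
      rfl
    · have h6 : lb p q M.card (if (true : Bool) then p + q + 2 else 0) = true := by
        unfold lb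
        rw [decide_eq_true_iff]
        simp only [if_true]
        omega
      rw [h6]
      rfl

/-! ## The row -/

theorem g_crm (h01 : StmtE01) (h02 : StmtE02) (_h18 : StmtE18) (h20 : StmtE20)
    (h00 : StmtG00) : StmtG09 := by
  intro V _ _ H X M Z p q B δ h ε η θ hA hG hMst hZB hMZ hne hMX hMp hmix
  have hM1 : 1 ≤ M.card := Finset.card_pos.mpr hne
  have hC := hG.cst
  have hk : (2 : ℝ) ≤ ((p + q + 2 : ℕ) : ℝ) := by
    have : (2 : ℕ) ≤ p + q + 2 := by omega
    exact_mod_cast this
  -- numbers
  have hθpos : 0 < θ M.card := hC.tpos _ hM1 (by omega)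
  have hηM := hC.pos M.card (by omega)
  have hηM' := hC.half M.card (by omega)
  have hθ1 : θ M.card ≤ 1 := by
    have h1 := hC.tsmall M.card hM1 (by omega)
    refine h1.trans ?_
    have hh := hC.hsmall
    have hh0 := hC.hpos
    have h2 : h ≤ 1 := by
      refine hh.trans ?_
      rw [div_le_one (by positivity)]
      have h3 : (1 : ℝ) ≤ 2 ^ (p + q + 2) := one_le_pow₀ (by norm_num)
      nlinarith
    have h4 : η M.card * h / (16 * ((p + q + 2 : ℕ) : ℝ)) ≤ 1 := by
      rw [div_le_one (by positivity)]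
      nlinarith
    have h5 : 0 ≤ η M.card * h / (16 * ((p + q + 2 : ℕ) : ℝ)) := by positivity
    exact pow_le_one₀ h5 h4
  set τ : ℝ := (θ M.card) ^ (2 ^ (p + q + 2)) with hτ
  have hτpos : 0 < τ := pow_pos hθpos _
  have hτ1 : τ ≤ 1 := pow_le_one₀ hθpos.le hθ1
  have he1 := hG.thetaG M.card hM1 (by omega)
  have hη0 : 0 < η 0 := hC.pos 0 (by omega)
  have hηmono : η 0 ≤ η (M.card - 1) := eta_mono hC (by omega) (by omega) (by omega)
  have hδ := hG.delG
  have hε := hG.epos
  have hε1 := hG.eone
  have hδτ : 100 * ((p + q + 2 : ℕ) : ℝ) * δ ≤ ε * τ := by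
    have h1 : ε * η 0 ≤ ε * η (M.card - 1) := mul_le_mul_of_nonneg_left hηmono hε.le
    have h2 : ε * η (M.card - 1) ≤ 1 * η (M.card - 1) :=
      mul_le_mul_of_nonneg_right hε1 (by linarith)
    have h3 : 1 * η (M.card - 1) ≤ 32 * ((p + q + 2 : ℕ) : ℝ) * η (M.card - 1) :=
      mul_le_mul_of_nonneg_right (by linarith) (by linarith)
    linarith
  have hn0 : (0 : ℝ) ≤ (Fintype.card V : ℝ) := Nat.cast_nonneg _
  have hZ : (Z.card : ℝ) ≤ τ / (100 * ((p + q + 2 : ℕ) : ℝ)) * (Fintype.card V : ℝ) := by
    have hbig := hA.big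
    have h1 : (Z.card : ℝ) ≤ (B : ℝ) := by exact_mod_cast hZB
    have h2 : (B : ℝ) ≤ ((B + p + q + 2 : ℕ) : ℝ) := by
      have : B ≤ B + p + q + 2 := by omega
      exact_mod_cast this
    have hB0 : (0 : ℝ) ≤ (B : ℝ) := Nat.cast_nonneg _
    have h3 : (B : ℝ) ≤ δ * (Fintype.card V : ℝ) := by
      have h4 : (1 : ℝ) ≤ 100 * ((p + q + 2 : ℕ) : ℝ) ^ 2 := by nlinarith
      have h5 : 1 * ((B + p + q + 2 : ℕ) : ℝ) ≤
          100 * ((p + q + 2 : ℕ) : ℝ) ^ 2 * ((B + p + q + 2 : ℕ) : ℝ) :=
        mul_le_mul_of_nonneg_right h4 (Nat.cast_nonneg _)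
      linarith
    have h4 : δ ≤ τ / (100 * ((p + q + 2 : ℕ) : ℝ)) := by
      rw [le_div_iff₀ (by positivity)]
      have h5 : ε * τ ≤ 1 * τ := mul_le_mul_of_nonneg_right hε1 hτpos.le
      linarith
    have h5 : δ * (Fintype.card V : ℝ) ≤
        τ / (100 * ((p + q + 2 : ℕ) : ℝ)) * (Fintype.card V : ℝ) :=
      mul_le_mul_of_nonneg_right h4 hn0
    linarith
  -- nonempty sides
  have hnpos : (0 : ℝ) < (Fintype.card V : ℝ) := by
    have h1 : 0 < Fintype.card V := by
      obtain ⟨v, _⟩ := hne
      exact Fintype.card_pos_iff.mpr ⟨v⟩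
    exact_mod_cast h1
  have hX : X.Nonempty := hne.mono hMX
  have hX' : (Xᶜ).Nonempty := by
    rw [← Finset.card_pos]
    have h1 := hA.lo'
    have h2 := hA.small
    have h3 : (0 : ℝ) < ((Xᶜ).card : ℝ) := by
      refine lt_of_lt_of_le ?_ h1
      have : (0 : ℝ) < 1 - δ := by linarith
      positivity
    exact_mod_cast h3
  -- the positions
  obtain ⟨L, hL⟩ : ∃ L, L + M.card = 2 * (p + q + 2) := ⟨2 * (p + q + 2) - M.card, by omega⟩
  obtain ⟨o, ho⟩ := exists_Fy p q L M hMp hM1 hL
  have hcwl : (cw p q M.card).length = L := by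
    have := cw_length (q := q) hMp
    omega
  have hLa : 2 * q + (p + 1 - M.card) + p + 3 ≤ L := by omega
  have hlett : ∀ (i : Fin L) (v : V), o i = some v →
      (v ∈ X ↔ (cw p q M.card).getD (i : ℕ) false = true) := by
    intro i v hi
    have h1 : v ∈ X := hMX ((ho.mem v).mpr ⟨i, hi⟩)
    have h2 : p + q + 2 ≤ (i : ℕ) + M.card ∧ (i : ℕ) < p + q + 2 := by
      by_contra hcon
      rw [(ho.none i).mpr hcon] at hi
      exact Option.some_ne_none _ hi.symm
    rw [cw_getD hMp]
    refine ⟨fun _ => ?_, fun _ => h1⟩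
    unfold lb
    rw [decide_eq_true_iff]
    omega
  have hlen : ∀ a : ℕ, a + (p + q + 2) ≤ L + 2 * (p + q + 1) →
      a + (p + q + 2) + M.card ≤ 4 * p + 4 * q + 6 := by intro a ha; omega
  obtain ⟨f, hinj, hfZ, hfo, hfl, _, hOK⟩ := h00 V H X Z p q B L δ ε τ (η (M.card - 1)) η
    (cw p q M.card) (low p q) (rw' p q M.card) o
    (fun f => PE H M (f ∘ plb p q (p + 1 - M.card) L hLa)) hA hε hε1 hτpos
    (by linarith) hcwl (by omega) (low_length p q) (rw'_length p q _) ho.inj
    (by
      intro i v hi hv
      exact Finset.disjoint_left.mp hMZ ((ho.mem v).mpr ⟨i, hi⟩) hv)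
    (dens_PB h01 h02 h20 hX hX' ho hM1 hL (by omega) hLa hθpos.le hθ1 hmix.le)
    (by
      intro a ha
      have hw := wt_win hMp a (hlen a ha)
      by_cases hcore : p + q + 1 ≤ a ∧ a + M.card ≤ 2 * p + 2 * q + 3
      · refine Or.inl ⟨hcore.1, by omega, ?_⟩
        intro f hf hPf
        exact core_windows ho hM1 hL (by omega) hf hLa hPf hcore.1 hcore.2
      · refine Or.inr ⟨?_, fun i v _ _ hi => hlett i v hi, ?_⟩
        · by_cases h1 : a < p + q + 1
          · exact Or.inl (hw.1 h1)
          · exact Or.inr (hw.2 (by omega))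
        · intro M' hM'
          have hsub : M' ⊆ M := by
            intro v hv
            obtain ⟨i, _, _, hi⟩ := (hM' v).mp hv
            exact (ho.mem v).mpr ⟨i, hi⟩
          -- a fixed position outside the window
          have hout : ∃ i : Fin L, ¬ (a ≤ (i : ℕ) + (p + q + 1) ∧
              (i : ℕ) + (p + q + 1) < a + (p + q + 2)) ∧ o i ≠ none := by
            by_cases h1 : a < p + q + 1
            · refine ⟨⟨p + q + 1, by omega⟩, ?_, ?_⟩
              · simp only
                omega
              · intro hcon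
                refine (ho.none _).mp hcon ?_
                simp only
                omega
            · refine ⟨⟨p + q + 2 - M.card, by omega⟩, ?_, ?_⟩
              · simp only
                omega
              · intro hcon
                refine (ho.none _).mp hcon ?_
                simp only
                omega
          have hss : M' ⊂ M := by
            refine Finset.ssubset_iff_subset_ne.mpr ⟨hsub, fun heq => ?_⟩
            obtain ⟨i, hi, hi'⟩ := hout
            obtain ⟨v, hv⟩ := Option.ne_none_iff_exists'.mp hi'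
            have h1 : v ∈ M := (ho.mem v).mpr ⟨i, hv⟩
            rw [← heq] at h1
            obtain ⟨j, hj1, hj2, hj'⟩ := (hM' v).mp h1
            rw [ho.inj i j v hv hj'] at hi
            exact hi ⟨hj1, hj2⟩
          have hcard : M'.card < M.card := Finset.card_lt_card hss
          have hMX' : M' ⊆ X := hsub.trans hMX
          have hsd : M' \ X = ∅ := Finset.sdiff_eq_empty_iff_subset.mpr hMX'
          refine ⟨hMst.2 M' hss, ?_, ?_, eta_mono hC (by omega) (by omega) (by omega)⟩
          · have := Finset.card_le_card (Finset.inter_subset_left : M' ∩ X ⊆ M')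
            omega
          · rw [hsd]
            simp)
    hZ he1 hδτ
  refine ⟨List.ofFn f, List.nodup_ofFn.mpr hinj, ?_, ?_, hOK⟩
  · intro v hv
    obtain ⟨i, rfl⟩ := (List.mem_ofFn' f v).mp hv
    exact hfZ i
  · show List.map (fun v => decide (v ∈ X)) (List.ofFn f) = cw p q M.card
    refine List.ext_getElem (by rw [List.length_map, List.length_ofFn, hcwl]) ?_
    intro i h1 h2
    rw [List.getElem_map, List.getElem_ofFn]
    have h3 : i < L := by omega
    have h4 : (cw p q M.card).getD i false = (cw p q M.card)[i] := List.getD_eq_getElem _ _ h2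
    have h5 : (f ⟨i, h3⟩ ∈ X ↔ (cw p q M.card).getD i false = true) := by
      by_cases h6 : o ⟨i, h3⟩ = none
      · exact hfl ⟨i, h3⟩ h6
      · obtain ⟨v, hv⟩ := Option.ne_none_iff_exists'.mp h6
        rw [hfo _ _ hv]
        exact hlett _ _ hv
    rw [← h4]
    rcases hb : (cw p q M.card).getD i false with _ | _
    · rw [decide_eq_false_iff_not, h5, hb]
      simp
    · rw [decide_eq_true_iff, h5, hb]

end Pool.Agent.KK.E.H44
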