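import Pool.Agent.KK.StmtsC

/-! Row RPL of squad KK (MP_747bc0_co): replacing segments in a woven list. -/

set_option autoImplicit false

namespace Pool.Agent.KK.H44

set_option linter.unusedSectionVars false
variable {V : Type} [DecidableEq V]

theorem tight_infix {H : Finset (Finset V)} {k : ℕ} {l l' : List V} (h : l' <:+: l)
    (ht : Tight H k l) : Tight H k l' :=
  fun s hs hl => ht s (hs.trans h) hl

/-- Gluing of tight lists along a common part of length at least `k - 1`. -/
theorem tight_glue {H : Finset (Finset V)} {k : ℕ} {u a v : List V} (hk : 1 ≤ k)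
    (ha : k - 1 ≤ a.length) (h1 : Tight H k (u ++ a)) (h2 : Tight H k (a ++ v)) :
    Tight H k (u ++ a ++ v) := by
  intro s hs hl
  obtain ⟨x, y, hxy⟩ := hs
  -- `x ++ s ++ y = u ++ a ++ v`
  by_cases hx : u.length ≤ x.length
  · -- the window starts in `a ++ v`
    apply h2 s _ hl
    have e : x = u ++ x.drop u.length := by
      have h3 : x.take u.length = u := by
        have h4 := congrArg (List.take u.length) hxy
        rw [List.append_assoc x s y, List.append_assoc u a v, List.take_append_of_le_length hx,
          List.take_append_of_le_length (le_refl _), List.take_length] at h4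
        exact h4
      conv_lhs => rw [← List.take_append_drop u.length x, h3]
    rw [e, List.append_assoc u a v, List.append_assoc, List.append_assoc] at hxy
    have h5 := List.append_cancel_left hxy
    exact ⟨x.drop u.length, y, by rw [List.append_assoc]; exact h5⟩
  · -- the window ends before the end of `a`
    push Not at hx
    apply h1 s _ hl
    have hlen : (x ++ s).length ≤ (u ++ a).length := by
      simp only [List.length_append]
      omega
    have h4 := congrArg (List.take (x ++ s).length) hxy
    rw [List.take_append_of_le_length (le_refl _), List.take_length,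
      List.take_append_of_le_length hlen] at h4
    refine ⟨x, (u ++ a).drop (x ++ s).length, ?_⟩
    conv_rhs => rw [← List.take_append_drop (x ++ s).length (u ++ a)]
    rw [h4.symm]

theorem tight_ctx {H : Finset (Finset V)} {k : ℕ} {L R p q : List V} (hk : 1 ≤ k)
    (hs : SameEnds (k - 1) p q) (_ : k - 1 ≤ p.length) (hq : k - 1 ≤ q.length)
    (hqt : Tight H k q) (h : Tight H k (L ++ p ++ R)) : Tight H k (L ++ q ++ R) := by
  obtain ⟨h1, h2⟩ := hs
  have hLa : Tight H k (L ++ q.take (k - 1)) := by
    apply tight_infix _ h
    rw [← h1]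
    refine ⟨[], p.drop (k - 1) ++ R, ?_⟩
    simp only [List.nil_append, List.append_assoc]
    rw [← List.append_assoc (p.take (k - 1)), List.take_append_drop]
  have hbR : Tight H k (q.drop (q.length - (k - 1)) ++ R) := by
    apply tight_infix _ h
    rw [← h2]
    refine ⟨L ++ p.take (p.length - (k - 1)), [], ?_⟩
    simp only [List.append_nil, List.append_assoc]
    rw [← List.append_assoc (p.take (p.length - (k - 1))), List.take_append_drop]
  have h3 : Tight H k (L ++ q) := by
    have h4 := tight_glue (u := L) (a := q.take (k - 1)) (v := q.drop (k - 1)) hk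
      (by rw [List.length_take]; omega) hLa (by rw [List.take_append_drop]; exact hqt)
    rwa [List.append_assoc, List.take_append_drop] at h4
  have h5 := tight_glue (u := L ++ q.take (q.length - (k - 1)))
    (a := q.drop (q.length - (k - 1))) (v := R) hk
    (by rw [List.length_drop]; omega)
    (by rw [List.append_assoc, List.take_append_drop]; exact h3) hbR
  rwa [List.append_assoc L, List.take_append_drop] at h5

theorem weave_ctx {H : Finset (Finset V)} {k : ℕ} (hk : 1 ≤ k) (R : List V) :
    ∀ (ps qs ws : List (List V)) (L : List V),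
      List.Forall₂ (fun p q => SameEnds (k - 1) p q ∧ k - 1 ≤ p.length ∧ k - 1 ≤ q.length ∧
        Tight H k q) ps qs →
      Tight H k (L ++ weave ps ws ++ R) → Tight H k (L ++ weave qs ws ++ R) := by
  intro ps
  induction ps with
  | nil =>
    intro qs ws L hf h
    rw [List.forall₂_nil_left_iff] at hf
    rw [hf]; exact h
  | cons p ps ih =>
    intro qs ws L hf h
    obtain ⟨q, qs', hpq, hf', rfl⟩ := List.forall₂_cons_left_iff.1 hf
    obtain ⟨h1, h2, h3, h4⟩ := hpq
    cases ps with
    | nil =>
      rw [List.forall₂_nil_left_iff] at hf'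
      rw [hf']
      exact tight_ctx hk h1 h2 h3 h4 h
    | cons p2 ps =>
      obtain ⟨q2, qs2, hpq2, hf2, rfl⟩ := List.forall₂_cons_left_iff.1 hf'
      cases ws with
      | nil =>
        simp only [weave] at h ⊢
        have e1 : L ++ (p ++ weave (p2 :: ps) []) ++ R = L ++ p ++ (weave (p2 :: ps) [] ++ R) := by
          simp only [List.append_assoc]
        rw [e1] at h
        have h5 := tight_ctx hk h1 h2 h3 h4 h
        have e2 : L ++ q ++ (weave (p2 :: ps) [] ++ R) = (L ++ q) ++ weave (p2 :: ps) [] ++ R := by
          simp only [List.append_assoc]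
        rw [e2] at h5
        have h6 := ih (q2 :: qs2) [] (L ++ q) hf' h5
        have e3 : L ++ (q ++ weave (q2 :: qs2) []) ++ R
            = (L ++ q) ++ weave (q2 :: qs2) [] ++ R := by
          simp only [List.append_assoc]
        rw [e3]; exact h6
      | cons w ws =>
        simp only [weave] at h ⊢
        have e1 : L ++ (p ++ w ++ weave (p2 :: ps) ws) ++ R
            = L ++ p ++ (w ++ weave (p2 :: ps) ws ++ R) := by
          simp only [List.append_assoc]
        rw [e1] at h
        have h5 := tight_ctx hk h1 h2 h3 h4 h
        have e2 : L ++ q ++ (w ++ weave (p2 :: ps) ws ++ R)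
            = (L ++ q ++ w) ++ weave (p2 :: ps) ws ++ R := by
          simp only [List.append_assoc]
        rw [e2] at h5
        have h6 := ih (q2 :: qs2) ws (L ++ q ++ w) hf' h5
        have e3 : L ++ (q ++ w ++ weave (q2 :: qs2) ws) ++ R
            = (L ++ q ++ w) ++ weave (q2 :: qs2) ws ++ R := by
          simp only [List.append_assoc]
        rw [e3]; exact h6

theorem weave_cons (p : List V) (ps ws : List (List V)) :
    ∃ X : List V, weave (p :: ps) ws = p ++ X := by
  cases ps with
  | nil => exact ⟨[], by simp [weave]⟩
  | cons p2 ps =>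
    cases ws with
    | nil => exact ⟨weave (p2 :: ps) [], by simp [weave]⟩
    | cons w ws => exact ⟨w ++ weave (p2 :: ps) ws, by simp [weave, List.append_assoc]⟩

theorem drop_last_append {r : ℕ} (X Y : List V) (h : r ≤ Y.length) :
    (X ++ Y).drop ((X ++ Y).length - r) = Y.drop (Y.length - r) := by
  have e : (X ++ Y).length - r = X.length + (Y.length - r) := by
    rw [List.length_append]; omega
  rw [e, ← List.drop_drop, List.drop_left]

theorem weave_length {r : ℕ} :
    ∀ (ps ws : List (List V)), ps ≠ [] → (∀ p ∈ ps, r ≤ p.length) →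
      r ≤ (weave ps ws).length := by
  intro ps ws h0 h
  cases ps with
  | nil => exact absurd rfl h0
  | cons p ps =>
    obtain ⟨X, hX⟩ := weave_cons p ps ws
    rw [hX, List.length_append]
    have := h p (List.mem_cons_self ..)
    omega

theorem weave_drop {r : ℕ} :
    ∀ (ps qs ws : List (List V)), ps ≠ [] →
      List.Forall₂ (fun p q : List V => SameEnds r p q ∧ r ≤ p.length ∧ r ≤ q.length) ps qs →
      (weave ps ws).drop ((weave ps ws).length - r) =
        (weave qs ws).drop ((weave qs ws).length - r) := by
  intro ps
  induction ps with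
  | nil => intro qs ws h; exact absurd rfl h
  | cons p ps ih =>
    intro qs ws _ hf
    obtain ⟨q, qs', hpq, hf', rfl⟩ := List.forall₂_cons_left_iff.1 hf
    obtain ⟨h1, h2, h3⟩ := hpq
    cases ps with
    | nil =>
      rw [List.forall₂_nil_left_iff] at hf'
      rw [hf']
      simp only [weave]
      exact h1.2
    | cons p2 ps =>
      obtain ⟨q2, qs2, hpq2, hf2, rfl⟩ := List.forall₂_cons_left_iff.1 hf'
      have hlen1 : ∀ p ∈ p2 :: ps, r ≤ p.length := by
        intro x hx
        obtain ⟨n, hn, hn'⟩ := List.mem_iff_getElem.1 hx
        have := (List.forall₂_iff_get.1 hf').2 n hn (by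
          rw [← (List.forall₂_iff_get.1 hf').1]; exact hn)
        rw [← hn']
        exact this.2.1
      have hlen2 : ∀ p ∈ q2 :: qs2, r ≤ p.length := by
        intro x hx
        obtain ⟨n, hn, hn'⟩ := List.mem_iff_getElem.1 hx
        have := (List.forall₂_iff_get.1 hf').2 n (by
          rw [(List.forall₂_iff_get.1 hf').1]; exact hn) hn
        rw [← hn']
        exact this.2.2
      cases ws with
      | nil =>
        simp only [weave]
        rw [drop_last_append _ _ (weave_length _ _ (by simp) hlen1),
          drop_last_append _ _ (weave_length _ _ (by simp) hlen2)]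
        exact ih (q2 :: qs2) [] (by simp) hf'
      | cons w ws =>
        simp only [weave]
        rw [drop_last_append _ _ (weave_length _ _ (by simp) hlen1),
          drop_last_append _ _ (weave_length _ _ (by simp) hlen2)]
        exact ih (q2 :: qs2) ws (by simp) hf'

theorem weave_take {r : ℕ} (ps qs ws : List (List V)) (h0 : ps ≠ [])
    (hf : List.Forall₂ (fun p q : List V => SameEnds r p q ∧ r ≤ p.length ∧ r ≤ q.length) ps qs) :
    (weave ps ws).take r = (weave qs ws).take r := by
  cases ps with
  | nil => exact absurd rfl h0
  | cons p ps =>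
    obtain ⟨q, qs', hpq, hf', rfl⟩ := List.forall₂_cons_left_iff.1 hf
    obtain ⟨h1, h2, h3⟩ := hpq
    obtain ⟨X, hX⟩ := weave_cons p ps ws
    obtain ⟨Y, hY⟩ := weave_cons q qs' ws
    rw [hX, hY, List.take_append_of_le_length h2, List.take_append_of_le_length h3]
    exact h1.1

theorem rpl : RplStmt := by
  intro k V _ _ H hk ps qs ws h0 hf
  have hf' : List.Forall₂ (fun p q : List V => SameEnds (k - 1) p q ∧ k - 1 ≤ p.length ∧
      k - 1 ≤ q.length) ps qs := hf.imp (fun p q h => ⟨h.1, h.2.1, h.2.2.1⟩)
  have hk1 : 1 ≤ k := by omega
  refine ⟨fun h => ⟨?_, weave_take ps qs ws h0 hf', weave_drop ps qs ws h0 hf'⟩, fun e h => ?_⟩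
  · have := weave_ctx hk1 [] ps qs ws [] hf (by simpa using h)
    simpa using this
  · rw [← weave_take ps qs ws h0 hf']
    have := weave_ctx hk1 (e ++ (weave ps ws).take (k - 1)) ps qs ws [] hf
      (by simpa [List.append_assoc] using h)
    simpa [List.append_assoc] using this

end Pool.Agent.KK.H44
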